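import Mathlib

/-! Permutation cubes, variational sets of cubes. -/

namespace J6H2.VC

/-- An `m`-dimensional permutation cube with symbols (and coordinates) in `S`: on every line
parallel to a coordinate axis the values form a permutation of `S`. -/
def IsPermutationCube {m : ℕ} {S : Type*} (C : (Fin m → S) → S) : Prop :=
  ∀ (x : Fin m → S) (i : Fin m), Function.Bijective fun a : S => C (Function.update x i a)

/-- A variational set: a family (indexed by `κ`) of `m`-dimensional permutation cubes such that
for any `m` of them with distinct indices the map `x ↦ (C₁ x, …, C_m x)` is a bijection. -/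
def IsVariationalSet {m : ℕ} {κ S : Type*} (C : κ → (Fin m → S) → S) : Prop :=
  (∀ j, IsPermutationCube (C j)) ∧
    ∀ e : Fin m → κ, Function.Injective e →
      Function.Bijective fun (x : Fin m → S) (i : Fin m) => C (e i) x

/-- The sizes of the variational sets of `m`-dimensional permutation cubes of order `n`.
`π_m(n)` is the greatest element of this set. -/
def sizes (m n : ℕ) : Set ℕ :=
  {k | ∃ C : Fin k → (Fin m → Fin n) → Fin n, IsVariationalSet C}

end J6H2.VC
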