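import Pool.Agent.J6H2.VC.Stm

/-! # Rootless quadratics over a finite field -/

open Polynomial

namespace J6H2.VC

theorem t_C1 : S_C1 := by
  intro F _ _ _ f hf h2 hroot h1
  have hdeg : f.natDegree < 3 := by
    rw [mem_degreeLT] at hf
    by_cases h0 : f = 0
    · rw [h0] at h2
      simp at h2
    · exact (natDegree_lt_iff_degree_lt h0).2 hf
  have hsq : Function.Surjective (fun t : F => t ^ 2) := by
    apply Finite.injective_iff_surjective.1
    intro s t hst
    have h3 : (s - t) ^ 2 = 0 := by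
      have h5 : (2 : F) = 0 := CharTwo.two_eq_zero
      have h6 : s ^ 2 = t ^ 2 := hst
      linear_combination h6 + (t ^ 2 - s * t) * h5
    exact sub_eq_zero.1 (pow_eq_zero_iff (two_ne_zero)|>.1 h3)
  obtain ⟨t, ht⟩ := hsq (-(f.coeff 0) / f.coeff 2)
  apply hroot t
  rw [eval_eq_sum_range' hdeg, Finset.sum_range_succ, Finset.sum_range_succ, Finset.sum_range_one, h1]
  have ht' : t ^ 2 = -(f.coeff 0) / f.coeff 2 := ht
  rw [ht', mul_div_cancel₀ _ h2]
  ring

theorem t_P2 : S_P2 := by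
  classical
  intro F _ _ hq
  obtain ⟨W, hW⟩ : ∃ W, W = Submodule.span F {f : degreeLT F 3 | (f : F[X]).coeff 2 ≠ 0 ∧
    ∀ t : F, (f : F[X]).eval t ≠ 0} := ⟨_, rfl⟩
  rw [← hW]
  obtain ⟨W', hW'⟩ : ∃ W' : Submodule F (Fin 3 → F), W' =
    W.comap ((degreeLTEquiv F 3).symm : (Fin 3 → F) →ₗ[F] degreeLT F 3) := ⟨_, rfl⟩
  -- membership
  have hmem : ∀ b c : F, (∀ t : F, c + b * t + t ^ 2 ≠ 0) → ![c, b, 1] ∈ W' := by
    intro b c h
    rw [hW', Submodule.mem_comap, hW]
    apply Submodule.subset_span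
    obtain ⟨p, hp⟩ : ∃ p, p = (degreeLTEquiv F 3).symm ![c, b, 1] := ⟨_, rfl⟩
    have hp' : degreeLTEquiv F 3 p = ![c, b, 1] := by rw [hp]; exact LinearEquiv.apply_symm_apply _ _
    show (degreeLTEquiv F 3).symm ![c, b, 1] ∈ _
    rw [← hp]
    have e0 : (p : F[X]).coeff 0 = c := congrFun hp' 0
    have e1 : (p : F[X]).coeff 1 = b := congrFun hp' 1
    have e2 : (p : F[X]).coeff 2 = 1 := congrFun hp' 2
    have hdeg : (p : F[X]).natDegree < 3 := by
      have hpd := p.2
      rw [mem_degreeLT] at hpd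
      by_cases h0 : (p : F[X]) = 0
      · rw [h0] at e2
        simp at e2
      · exact (natDegree_lt_iff_degree_lt h0).2 hpd
    refine ⟨by rw [e2]; exact one_ne_zero, fun t => ?_⟩
    rw [eval_eq_sum_range' hdeg, Finset.sum_range_succ, Finset.sum_range_succ, Finset.sum_range_one,
      e0, e1, e2]
    have := h t
    simpa using this
  have htop : (![1, 0, 0] : Fin 3 → F) ∈ W' → (![0, 1, 0] : Fin 3 → F) ∈ W' →
      (![0, 0, 1] : Fin 3 → F) ∈ W' → W = ⊤ := by
    intro h0 h1 h2
    rw [Submodule.eq_top_iff']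
    intro f
    have h3 : degreeLTEquiv F 3 f ∈ W' := by
      have e : degreeLTEquiv F 3 f = (degreeLTEquiv F 3 f 0) • (![1, 0, 0] : Fin 3 → F) +
          (degreeLTEquiv F 3 f 1) • (![0, 1, 0] : Fin 3 → F) +
          (degreeLTEquiv F 3 f 2) • (![0, 0, 1] : Fin 3 → F) := by
        ext i
        fin_cases i <;> simp
      rw [e]
      exact W'.add_mem (W'.add_mem (W'.smul_mem _ h0) (W'.smul_mem _ h1)) (W'.smul_mem _ h2)
    rw [hW', Submodule.mem_comap] at h3
    have h4 : (degreeLTEquiv F 3).symm (degreeLTEquiv F 3 f) ∈ W := h3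
    rwa [LinearEquiv.symm_apply_apply] at h4
  by_cases hchar : ringChar F = 2
  · haveI : CharP F 2 := ringChar.of_eq hchar
    have h2 : (2 : F) = 0 := CharTwo.two_eq_zero
    obtain ⟨t0, ht0, ht1⟩ : ∃ t0 : F, t0 ≠ 0 ∧ t0 ≠ 1 := by
      by_contra hcon
      push Not at hcon
      have h3 : (Finset.univ : Finset F) ⊆ {0, 1} := by
        intro x _
        rw [Finset.mem_insert, Finset.mem_singleton]
        by_cases hx : x = 0
        · exact Or.inl hx
        · exact Or.inr (hcon x hx)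
      have h4 := Finset.card_le_card h3
      rw [Finset.card_univ] at h4
      have h5 : ({0, 1} : Finset F).card ≤ 2 := Finset.card_le_two
      omega
    obtain ⟨c, hc⟩ : ∃ c : F, ∀ t : F, t ^ 2 + t ≠ c := by
      by_contra hcon
      push Not at hcon
      have hinj := (Finite.injective_iff_surjective (f := fun t : F => t ^ 2 + t)).2 hcon
      have h3 : (0 : F) = 1 := hinj (by
        show (0 : F) ^ 2 + 0 = 1 ^ 2 + 1
        linear_combination -h2)
      exact zero_ne_one h3
    obtain ⟨w, hw⟩ : ∃ w, w = t0 ^ 2 + t0 := ⟨_, rfl⟩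
    have hw0 : w ≠ 0 := by
      rw [hw]
      intro h3
      have h4 : t0 * (t0 + 1) = 0 := by linear_combination h3
      rcases mul_eq_zero.1 h4 with h5 | h5
      · exact ht0 h5
      · apply ht1
        linear_combination h5 - h2
    have m1 : (![c, 1, 1] : Fin 3 → F) ∈ W' := hmem 1 c (fun t h => hc t (by
      linear_combination h - c * h2))
    have m2 : (![c + w, 1, 1] : Fin 3 → F) ∈ W' := hmem 1 (c + w) (fun t h => hc (t + t0) (by
      rw [hw] at h
      linear_combination h + (t * t0 - c) * h2))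
    have m3 : (![t0 ^ 2 * c, t0, 1] : Fin 3 → F) ∈ W' := hmem t0 (t0 ^ 2 * c) (fun t h => hc (t / t0) (by
      have h3 : (t / t0) ^ 2 + t / t0 = (t ^ 2 + t0 * t) / t0 ^ 2 := by field_simp
      rw [h3, div_eq_iff (pow_ne_zero 2 ht0)]
      linear_combination h - t0 ^ 2 * c * h2))
    have k0 : (![1, 0, 0] : Fin 3 → F) ∈ W' := by
      have e : (![1, 0, 0] : Fin 3 → F) = w⁻¹ • (![c + w, 1, 1] - ![c, 1, 1]) := by
        ext i
        fin_cases i <;> simp [hw0]
      rw [e]
      exact W'.smul_mem _ (W'.sub_mem m2 m1)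
    have ht01 : t0 - 1 ≠ 0 := sub_ne_zero.2 ht1
    have k1 : (![0, 1, 0] : Fin 3 → F) ∈ W' := by
      have e : (![0, 1, 0] : Fin 3 → F) = (t0 - 1)⁻¹ • (![t0 ^ 2 * c, t0, 1] - ![c, 1, 1] -
          (t0 ^ 2 * c - c) • ![1, 0, 0]) := by
        ext i
        fin_cases i <;> simp [ht01]
      rw [e]
      exact W'.smul_mem _ (W'.sub_mem (W'.sub_mem m3 m1) (W'.smul_mem _ k0))
    refine htop k0 k1 ?_
    have e : (![0, 0, 1] : Fin 3 → F) = ![c, 1, 1] - c • ![1, 0, 0] - ![0, 1, 0] := by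
      ext i
      fin_cases i <;> simp
    rw [e]
    exact W'.sub_mem (W'.sub_mem m1 (W'.smul_mem _ k0)) k1
  · obtain ⟨n, hn⟩ := FiniteField.exists_nonsquare hchar
    have h2 : (2 : F) ≠ 0 := Ring.two_ne_zero hchar
    have hsq : ∀ t : F, t ^ 2 ≠ n := fun t h => hn ⟨t, by rw [← h]; ring⟩
    have m1 : (![-n, 0, 1] : Fin 3 → F) ∈ W' := hmem 0 (-n) (fun t h => hsq t (by linear_combination h))
    have m2 : (![1 - n, -2, 1] : Fin 3 → F) ∈ W' := hmem (-2) (1 - n) (fun t h => hsq (t - 1) (by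
      linear_combination h))
    have m3 : (![1 - n, 2, 1] : Fin 3 → F) ∈ W' := hmem 2 (1 - n) (fun t h => hsq (t + 1) (by
      linear_combination h))
    have k0 : (![1, 0, 0] : Fin 3 → F) ∈ W' := by
      have e : (![1, 0, 0] : Fin 3 → F) = (2 : F)⁻¹ • (![1 - n, -2, 1] + ![1 - n, 2, 1] -
          (2 : F) • ![-n, 0, 1]) := by
        ext i
        fin_cases i
        · simp
          field_simp
          ring
        · simp
        · simp
          right
          ring
      rw [e]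
      exact W'.smul_mem _ (W'.sub_mem (W'.add_mem m2 m3) (W'.smul_mem _ m1))
    have k1 : (![0, 1, 0] : Fin 3 → F) ∈ W' := by
      have h4 : (4 : F) ≠ 0 := by
        have : (4 : F) = 2 * 2 := by norm_num
        rw [this]
        exact mul_ne_zero h2 h2
      have e : (![0, 1, 0] : Fin 3 → F) = (4 : F)⁻¹ • (![1 - n, 2, 1] - ![1 - n, -2, 1]) := by
        ext i
        fin_cases i
        · simp
        · simp
          field_simp
          ring
        · simp
      rw [e]
      exact W'.smul_mem _ (W'.sub_mem m3 m2)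
    refine htop k0 k1 ?_
    have e : (![0, 0, 1] : Fin 3 → F) = ![-n, 0, 1] + n • ![1, 0, 0] := by
      ext i
      fin_cases i <;> simp
    rw [e]
    exact W'.add_mem m1 (W'.smul_mem _ k0)

end J6H2.VC
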