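import Pool.Agent.J6H2.VC.Stm

/-! Module VC-P3. -/

open Polynomial

namespace J6H2.VC

section

variable {F : Type} [Field F]

/-- The span of the rootless polynomials of degree exactly `d`, as a set of polynomials. -/
noncomputable def p3W (F : Type) [Field F] (d : ℕ) : Submodule F F[X] :=
  Submodule.span F {f : F[X] | f ∈ degreeLT F (d + 1) ∧ f.coeff d ≠ 0 ∧ ∀ t : F, f.eval t ≠ 0}

theorem p3_smul {d : ℕ} {c : F} (hc : c ≠ 0) {p : F[X]} (h : C c * p ∈ p3W F d) : p ∈ p3W F d := by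
  have h2 := (p3W F d).smul_mem c⁻¹ h
  rwa [Polynomial.smul_eq_C_mul, ← mul_assoc, ← C_mul, inv_mul_cancel₀ hc, C_1, one_mul] at h2

theorem p3_C {d : ℕ} (c : F) {p : F[X]} (h : p ∈ p3W F d) : C c * p ∈ p3W F d := by
  have h2 := (p3W F d).smul_mem c h
  rwa [Polynomial.smul_eq_C_mul] at h2

/-- Step 0. -/
theorem p3_sub {d : ℕ} (hd : 3 ≤ d) {g : F[X]} (hg : g.natDegree ≤ d) (hc : g.coeff d ≠ 0) {t : F}
    (ht : ∀ x : F, g.eval x ≠ t) : g - C t ∈ p3W F d := by
  apply Submodule.subset_span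
  refine ⟨?_, ?_, ?_⟩
  · rw [mem_degreeLT]
    have h1 : (g - C t).natDegree ≤ d := by
      rw [natDegree_sub_C]
      exact hg
    have h2 : (g - C t).degree ≤ (d : WithBot ℕ) := natDegree_le_iff_degree_le.1 h1
    refine lt_of_le_of_lt h2 ?_
    exact_mod_cast Nat.lt_succ_self d
  · rw [coeff_sub, coeff_C_of_ne_zero (by omega), sub_zero]
    exact hc
  · intro x hx
    rw [eval_sub, eval_C, sub_eq_zero] at hx
    exact ht x hx

/-- Step 1. -/
theorem p3_one [Fintype F] (hq : 3 ≤ Fintype.card F) {d : ℕ} (hd : 3 ≤ d) : (1 : F[X]) ∈ p3W F d := by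
  classical
  have h3 : 2 < (Finset.univ : Finset F).card := by
    rw [Finset.card_univ]
    omega
  obtain ⟨a, b, c, _, _, _, hab, hac, hbc⟩ := Finset.two_lt_card_iff.1 h3
  set h : F[X] := (X - C a) * (X - C b) * (X - C c) with hh
  have hm : h.Monic := ((monic_X_sub_C a).mul (monic_X_sub_C b)).mul (monic_X_sub_C c)
  have hn : h.natDegree = 3 := by
    rw [hh, natDegree_mul (mul_ne_zero (X_sub_C_ne_zero a) (X_sub_C_ne_zero b)) (X_sub_C_ne_zero c),
      natDegree_mul (X_sub_C_ne_zero a) (X_sub_C_ne_zero b), natDegree_X_sub_C, natDegree_X_sub_C,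
      natDegree_X_sub_C]
  set g : F[X] := h * X ^ (d - 3) with hgd
  have hgm : g.Monic := hm.mul (monic_X_pow _)
  have hgn : g.natDegree = d := by
    rw [hgd, hm.natDegree_mul (monic_X_pow _), hn, natDegree_X_pow]
    omega
  have hga : g.eval a = 0 := by rw [hgd, hh]; simp
  have hgb : g.eval b = 0 := by rw [hgd, hh]; simp
  have hgc : g.eval c = 0 := by rw [hgd, hh]; simp
  have hgd1 : g.coeff d ≠ 0 := by
    have h5 : g.coeff d = 1 := by
      have h6 := hgm.coeff_natDegree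
      rwa [hgn] at h6
    rw [h5]
    exact one_ne_zero
  set I : Finset F := Finset.univ.image (fun x => g.eval x) with hI
  have hsub : I ⊆ ((Finset.univ.erase b).erase c).image (fun x => g.eval x) := by
    intro y hy
    rw [hI, Finset.mem_image] at hy
    obtain ⟨x, _, rfl⟩ := hy
    rw [Finset.mem_image]
    by_cases hx : x = b ∨ x = c
    · refine ⟨a, by simp [hab, hac], ?_⟩
      rcases hx with rfl | rfl
      · simp only [hga, hgb]
      · simp only [hga, hgc]
    · push Not at hx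
      exact ⟨x, by simp [hx.1, hx.2], rfl⟩
  have hcard : I.card ≤ Fintype.card F - 2 := by
    refine (Finset.card_le_card hsub).trans (Finset.card_image_le.trans ?_)
    rw [Finset.card_erase_of_mem (by simp [Ne.symm hbc]), Finset.card_erase_of_mem (Finset.mem_univ b),
      Finset.card_univ]
    omega
  have hcompl : 1 < Iᶜ.card := by
    rw [Finset.card_compl]
    omega
  obtain ⟨t1, ht1, t2, ht2, h12⟩ := Finset.one_lt_card.1 hcompl
  have hv : ∀ t ∈ Iᶜ, ∀ x : F, g.eval x ≠ t := by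
    intro t ht x hx
    rw [Finset.mem_compl] at ht
    exact ht (by rw [hI]; exact Finset.mem_image.2 ⟨x, Finset.mem_univ x, hx⟩)
  have w1 := p3_sub hd hgn.le hgd1 (hv t1 ht1)
  have w2 := p3_sub hd hgn.le hgd1 (hv t2 ht2)
  have w3 : C (t2 - t1) * (1 : F[X]) ∈ p3W F d := by
    have h7 := (p3W F d).sub_mem w1 w2
    have h8 : g - C t1 - (g - C t2) = C (t2 - t1) * (1 : F[X]) := by
      rw [C_sub]
      ring
    rwa [h8] at h7
  exact p3_smul (sub_ne_zero.2 (Ne.symm h12)) w3

/-- Step 2. -/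
theorem p3_two [Fintype F] (hq : 3 ≤ Fintype.card F) {d : ℕ} (hd : 3 ≤ d) {g : F[X]} (hg : g.natDegree ≤ d)
    (hc : g.coeff d ≠ 0) {a b : F} (hab : a ≠ b) (he : g.eval a = g.eval b) : g ∈ p3W F d := by
  have h1 : ¬ Function.Injective (fun x : F => g.eval x) := fun h => hab (h he)
  have h2 : ¬ Function.Surjective (fun x : F => g.eval x) := fun h =>
    h1 (Finite.injective_iff_surjective.2 h)
  unfold Function.Surjective at h2
  push Not at h2
  obtain ⟨t, ht⟩ := h2
  have h3 := p3_sub hd hg hc ht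
  have h4 := (p3W F d).add_mem h3 (p3_C t (p3_one hq hd))
  rwa [mul_one, sub_add_cancel] at h4

/-- Step 3. -/
theorem p3_three [Fintype F] (hq : 3 ≤ Fintype.card F) {e : ℕ} (he : 1 ≤ e) {p : F[X]} (hp : p.natDegree ≤ e)
    {a b : F} (hab : a ≠ b) : (X - C a) * (X - C b) * p ∈ p3W F (e + 2) := by
  have hn : ((X - C a) * (X - C b) : F[X]).natDegree = 2 := by
    rw [natDegree_mul (X_sub_C_ne_zero a) (X_sub_C_ne_zero b), natDegree_X_sub_C, natDegree_X_sub_C]
  have hm : ((X - C a) * (X - C b) : F[X]).Monic := (monic_X_sub_C a).mul (monic_X_sub_C b)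
  have hc2 : ((X - C a) * (X - C b) : F[X]).coeff 2 = 1 := by
    have h := hm.coeff_natDegree
    rwa [hn] at h
  have key : ∀ r : F[X], r.natDegree ≤ e → r.coeff e ≠ 0 →
      (X - C a) * (X - C b) * r ∈ p3W F (e + 2) := by
    intro r hr hre
    refine p3_two hq (by omega) ?_ ?_ hab ?_
    · refine natDegree_mul_le.trans ?_
      rw [hn]
      omega
    · rw [add_comm e 2, coeff_mul_add_eq_of_natDegree_le hn.le hr, hc2, one_mul]
      exact hre
    · simp
  by_cases hpe : p.coeff e = 0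
  · have h1 := key (X ^ e + p) (by
      refine (natDegree_add_le _ _).trans ?_
      rw [natDegree_X_pow]
      exact max_le le_rfl hp) (by
      rw [coeff_add, coeff_X_pow_self, hpe, add_zero]
      exact one_ne_zero)
    have h2 := key (X ^ e) (by rw [natDegree_X_pow]) (by
      rw [coeff_X_pow_self]
      exact one_ne_zero)
    have h3 := (p3W F (e + 2)).sub_mem h1 h2
    have h4 : (X - C a) * (X - C b) * (X ^ e + p) - (X - C a) * (X - C b) * X ^ e =
        (X - C a) * (X - C b) * p := by ring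
    rwa [h4] at h3
  · exact key p hp hpe

/-- Step 4. -/
theorem p3_four [Fintype F] (hq : 3 ≤ Fintype.card F) {e : ℕ} (he : 1 ≤ e) {p : F[X]} (hp : p.natDegree ≤ e) :
    p ∈ p3W F (e + 2) ∧ X * p ∈ p3W F (e + 2) ∧ X ^ 2 * p ∈ p3W F (e + 2) := by
  classical
  have hlin : ∀ a : F, (X - C a) * p ∈ p3W F (e + 2) := by
    intro a
    have h3 : 1 < ((Finset.univ : Finset F).erase a).card := by
      rw [Finset.card_erase_of_mem (Finset.mem_univ a), Finset.card_univ]
      omega
    obtain ⟨b, hb, c, hc, hbc⟩ := Finset.one_lt_card.1 h3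
    have hab : a ≠ b := (Finset.ne_of_mem_erase hb).symm
    have hac : a ≠ c := (Finset.ne_of_mem_erase hc).symm
    have w := (p3W F (e + 2)).sub_mem (p3_three hq he hp hab) (p3_three hq he hp hac)
    have h4 : (X - C a) * (X - C b) * p - (X - C a) * (X - C c) * p =
        C (c - b) * ((X - C a) * p) := by
      rw [C_sub]
      ring
    rw [h4] at w
    exact p3_smul (sub_ne_zero.2 (Ne.symm hbc)) w
  have h01 : (0 : F) ≠ 1 := zero_ne_one
  have hp1 : p ∈ p3W F (e + 2) := by
    have w := (p3W F (e + 2)).sub_mem (hlin 0) (hlin 1)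
    have h4 : (X - C (0 : F)) * p - (X - C 1) * p = p := by
      rw [C_0, C_1]
      ring
    rwa [h4] at w
  have hp2 : X * p ∈ p3W F (e + 2) := by
    have w := hlin 0
    rwa [C_0, sub_zero] at w
  refine ⟨hp1, hp2, ?_⟩
  have w := (p3W F (e + 2)).add_mem (p3_three hq he hp h01) hp2
  have h4 : (X - C (0 : F)) * (X - C 1) * p + X * p = X ^ 2 * p := by
    rw [C_0, C_1]
    ring
  rwa [h4] at w

theorem p3_all [Fintype F] (hq : 3 ≤ Fintype.card F) {e : ℕ} (he : 1 ≤ e) :
    degreeLT F (e + 2 + 1) ≤ p3W F (e + 2) := by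
  classical
  rw [degreeLT_eq_span_X_pow, Submodule.span_le]
  intro f hf
  rw [Finset.mem_coe, Finset.mem_image] at hf
  obtain ⟨i, hi, rfl⟩ := hf
  rw [Finset.mem_range] at hi
  show (X ^ i : F[X]) ∈ p3W F (e + 2)
  rcases Nat.lt_or_ge e i with h | h
  · have h0 := p3_four hq he (p := (X ^ e : F[X])) (by rw [natDegree_X_pow])
    rcases (by omega : i = e + 1 ∨ i = e + 2) with rfl | rfl
    · rw [pow_succ']
      exact h0.2.1
    · rw [add_comm e 2, pow_add]
      rw [add_comm 2 e]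
      exact h0.2.2
  · exact (p3_four hq he (p := (X ^ i : F[X])) (by rw [natDegree_X_pow]; exact h)).1

end

theorem t_P3 : S_P3 := by
  intro F _ _ hq d hd
  obtain ⟨e, rfl⟩ : ∃ e, d = e + 2 := ⟨d - 2, by omega⟩
  have hall := p3_all (F := F) hq (e := e) (by omega)
  rw [eq_top_iff]
  rintro ⟨x, hx⟩ -
  set S : Set (degreeLT F (e + 2 + 1)) := {f : degreeLT F (e + 2 + 1) | (f : F[X]).coeff (e + 2) ≠ 0 ∧
    ∀ t : F, (f : F[X]).eval t ≠ 0} with hS
  have h1 : p3W F (e + 2) ≤ Submodule.map (degreeLT F (e + 2 + 1)).subtype (Submodule.span F S) := by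
    rw [Submodule.map_span, p3W, Submodule.span_le]
    rintro f ⟨hf1, hf2, hf3⟩
    exact Submodule.subset_span ⟨⟨f, hf1⟩, ⟨hf2, hf3⟩, rfl⟩
  obtain ⟨y, hy, hyx⟩ := h1 (hall hx)
  have h2 : y = ⟨x, hx⟩ := Subtype.ext hyx
  rwa [← h2]

end J6H2.VC
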