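import Pool.Agent.J6H2.VC.Defs

/-! Statements for the modules. -/

open Polynomial

namespace J6H2.VC

/-- Rows `r : R`, columns `i : ι`, entries `A i r : S`; an array of strength `m` and index one:
two rows agreeing in `≥ m` columns are equal, and any `≤ m` entries can be prescribed. -/
def OA {ι R S : Type} (m : ℕ) (A : ι → R → S) : Prop :=
  (∀ s : Finset ι, m ≤ s.card → ∀ r r' : R, (∀ i ∈ s, A i r = A i r') → r = r') ∧
  ∀ s : Finset ι, s.card ≤ m → ∀ f : ι → S, ∃ r : R, ∀ i ∈ s, A i r = f i

/-- (Bush) PROOF. Fix a row `r0`. Choose disjoint sets of columns: `Z` with `m - 3` elements, two columns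
`p ≠ q`, and the remaining set `J`; since `card ι + 1 = m + n` it has `n = card S` elements (odd).
Choose `a ≠ A p r0`, `b ≠ A q r0`. For `j ∈ J` let `s_j` be THE row with `= r0` on `Z`, `a` at `p`, `b` at
`q`, `A j r0` at `j` (m columns: exists and is unique). Claim: for `j ∈ J` there is exactly one `j' ∈ J`,
`j' ≠ j`, with `A j' s_j = A j' r0`. Then `s_{j'} = s_j`, so `j ↦ j'` is an involution without fixed
point on `J`, so `n = #J` is even: contradiction (`Finset.card_involution`/`Function.Involutive.card...`,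
or `Finset.sum_involution` mod 2).
Unique: if `s_j` agrees with `r0` at `j, j', j''` and on `Z`: m columns, so `s_j = r0`, but `a ≠ A p r0`.
Exists: suppose not. For each `i` in the set `I = (J \ {j}) ∪ {q}` (`n` elements), `A i s_j ≠ A i r0`; let
`t_i` be the row with `= r0` on `Z`, `= A j r0` at `j`, `a` at `p`, `A i r0` at `i` (m columns). Map
`i ↦ A i0 t_i` for a fixed column `i0 ∈ I`... simplest: the rows `= r0` on `Z`, `A j r0` at `j` and `a` at
`p` are determined by their value at the column `q` (m columns in all); `t_i` has a value at `q`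
different from `A q s_j = b` (otherwise `t_i = s_j`, but `A i t_i = A i r0 ≠ A i s_j`). So `n` indices `i`
give values in `S \ {b}` (`n - 1` elements): two indices `i ≠ i'` with `t_i = t_{i'}` =: `t`; `t` agrees
with `r0` on `Z ∪ {j, i, i'}` (m columns), so `t = r0`, but `A p t = a ≠ A p r0`. -/
def S_UO : Prop := ∀ (ι R S : Type) [Fintype ι] [Fintype S] (m : ℕ) (A : ι → R → S), OA m A →
  3 ≤ m → Odd (Fintype.card S) → 3 ≤ Fintype.card S → Fintype.card ι + 1 = m + Fintype.card S → False

/-- PROOF. Let `V` be the span. (1) `q = 3`: `F = ZMod 3` up to iso: directly, for every field with 3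
elements `x^2+1`, `(x+1)^2+1`, `(x-1)^2+1` are rootless (only values 0, 1, -1, and `1+1+1=0`), and they
span: differences `2x+1`, `-2x+1`. (2) `q ≥ 4`: `g = x^2 - x` takes the same value at `t` and `1 - t`, so it
misses at least two values `t1 ≠ t2` of `F` (the image has at most `(q+1)/2 ≤ q - 2` elements for `q ≥ 5`
and `q / 2 ≤ q - 2` for `q = 4`), so `g - t1, g - t2 ∈ V`, so `1 ∈ V`, `g ∈ V`. More generally for every
quadratic `f = (x-a)(x-b)`, `a ≠ b`, `f` is not injective, so not surjective, so misses some `t`,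
`f - t ∈ V`, so `f ∈ V` as `1 ∈ V`. Differences: `(x-a)(x-b) - (x-a)(x-c) = (c-b)(x-a)`, so `x - a ∈ V`,
so `x ∈ V`, so all. -/
def S_P2 : Prop := ∀ (F : Type) [Field F] [Fintype F], 3 ≤ Fintype.card F →
  Submodule.span F {f : degreeLT F 3 | (f : F[X]).coeff 2 ≠ 0 ∧ ∀ t : F, (f : F[X]).eval t ≠ 0} = ⊤

/-- PROOF. If `f = a x^2 + c` (`a ≠ 0`) in characteristic 2 then `t` with `t^2 = - c / a` (squaring is
injective, so bijective, on a finite field of characteristic 2) is a root. -/
def S_C1 : Prop := ∀ (F : Type) [Field F] [Fintype F] [CharP F 2] (f : F[X]), f ∈ degreeLT F 3 →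
  f.coeff 2 ≠ 0 → (∀ t : F, f.eval t ≠ 0) → f.coeff 1 ≠ 0

/-- PROOF. `V` the span, `q = card F ≥ 3`, `d ≥ 3`. (1) `g = (x-a)(x-b)(x-c) x^(d-3)` with distinct `a,b,c`
has three zeros, so its image has at most `q - 2` elements, so there are `t1 ≠ t2` not in the image;
`g - t1, g - t2 ∈ V`, so `1 ∈ V` (constants). (2) Every `g` of degree exactly `d` which is not injective on
`F` is not surjective, so `g - t ∈ V` for some `t`, so `g ∈ V`. (3) Let `a ≠ b`, `p` of degree `≤ d - 2`:
then `(x-a)(x-b) p ∈ V`: if `coeff (d-2) p ≠ 0` by (2); otherwise it is the difference of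
`(x-a)(x-b)(x^(d-2) + p)` and `(x-a)(x-b) x^(d-2)`. (4) Differences over `b ≠ c` (both `≠ a`; `q ≥ 3`):
`(x-a)(x-b)p - (x-a)(x-c)p = (c-b)(x-a)p`, so `(x-a)p ∈ V` for all `a`; differences over `a`: `p ∈ V`;
so `x p ∈ V`, `x^2 p ∈ V`; so all monomials `x^i`, `i ≤ d`, are in `V`. -/
def S_P3 : Prop := ∀ (F : Type) [Field F] [Fintype F], 3 ≤ Fintype.card F → ∀ d : ℕ, 3 ≤ d →
  Submodule.span F {f : degreeLT F (d + 1) | (f : F[X]).coeff d ≠ 0 ∧
    ∀ t : F, (f : F[X]).eval t ≠ 0} = ⊤

/-- PROOF. `V` the span of the nowhere zero vectors of sum 0 in `F^N`, `N ≥ 4`, `3 ≤ card F`. It contains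
`e_i - e_j` for `i ≠ j`: choose `a ≠ b` nonzero; there is a nowhere zero vector `y` of sum 0 with
`y i = a`, `y j = b` (the other `N - 2 ≥ 2` coordinates: every element of `F` is a sum of `r ≥ 2`
nonzero elements: induction on `r`, for `r = 2` write `s = x + (s - x)` with `x ≠ 0, s`). The vector `y'`
with the coordinates `i`, `j` exchanged is also in `V`, and `y' - y = (b - a)(e_i - e_j)`. A vector `c`
orthogonal to all of them is constant (this is the statement needed). -/
def S_Z : Prop := ∀ (F : Type) [Field F] [Fintype F], 3 ≤ Fintype.card F → ∀ (N : ℕ), 4 ≤ N →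
  ∀ y : Fin N → F, ∑ i, y i = 0 →
    y ∈ Submodule.span F {z : Fin N → F | ∑ i, z i = 0 ∧ ∀ i, z i ≠ 0}

end J6H2.VC
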