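import Pool.Agent.J6H2.VC.Stm

/-! Bush's bound for orthogonal arrays of index one with an odd number of symbols. -/

open Finset

namespace J6H2.VC

theorem t_UO : S_UO := by
  classical
  intro ι R S _ _ m A hA hm hodd hS hcard
  obtain ⟨hA1, hA2⟩ := hA
  have hι : 1 < Fintype.card ι := by omega
  obtain ⟨p, q, hpq⟩ := Fintype.exists_pair_of_one_lt_card hι
  have hc2 : (univ \ {p, q} : Finset ι).card = Fintype.card ι - 2 := by
    rw [card_sdiff_of_subset (subset_univ _), card_univ, card_pair hpq]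
  have h1 : m - 3 ≤ (univ \ {p, q} : Finset ι).card := by omega
  obtain ⟨Z, hZ, hZc⟩ := Finset.exists_subset_card_eq h1
  set J : Finset ι := (univ \ {p, q}) \ Z with hJdef
  have hJ : J.card = Fintype.card S := by
    rw [hJdef, card_sdiff_of_subset hZ, hc2, hZc]
    omega
  have hpZ : p ∉ Z := fun h => by
    have := hZ h
    simp at this
  have hqZ : q ∉ Z := fun h => by
    have := hZ h
    simp at this
  have hJZ : ∀ j ∈ J, j ∉ Z := fun j hj => (mem_sdiff.1 hj).2
  have hJp : ∀ j ∈ J, j ≠ p := fun j hj h => by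
    have := (mem_sdiff.1 hj).1
    simp [h] at this
  have hJq : ∀ j ∈ J, j ≠ q := fun j hj h => by
    have := (mem_sdiff.1 hj).1
    simp [h] at this
  have hSne : Nonempty S := Fintype.card_pos_iff.1 (by omega)
  obtain ⟨s0⟩ := hSne
  obtain ⟨r0, -⟩ := hA2 ∅ (by simp) (fun _ => s0)
  have hRne : Nonempty R := ⟨r0⟩
  obtain ⟨a, ha⟩ : ∃ a, a ≠ A p r0 := Fintype.exists_ne_of_one_lt_card (by omega) _
  obtain ⟨b, hb⟩ : ∃ b, b ≠ A q r0 := Fintype.exists_ne_of_one_lt_card (by omega) _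
  have hcd : ∀ x y z : ι, x ∉ Z → y ∉ Z → z ∉ Z → x ≠ y → x ≠ z → y ≠ z →
      (insert x (insert y (insert z Z))).card = m := by
    intro x y z hx hy hz hxy hxz hyz
    rw [card_insert_of_notMem (by simp [hxy, hxz, hx]), card_insert_of_notMem (by simp [hyz, hy]),
      card_insert_of_notMem hz, hZc]
    omega
  have ext3 : ∀ x y z : ι, x ∉ Z → y ∉ Z → z ∉ Z → x ≠ y → x ≠ z → y ≠ z → ∀ r r' : R,
      (∀ i ∈ Z, A i r = A i r') → A x r = A x r' → A y r = A y r' → A z r = A z r' → r = r' := by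
    intro x y z hx hy hz hxy hxz hyz r r' h0 h1 h2 h3
    refine hA1 (insert x (insert y (insert z Z))) (hcd x y z hx hy hz hxy hxz hyz).ge r r' ?_
    intro i hi
    simp only [mem_insert] at hi
    rcases hi with rfl | rfl | rfl | hi
    · exact h1
    · exact h2
    · exact h3
    · exact h0 i hi
  have mk3 : ∀ x y z : ι, x ∉ Z → y ∉ Z → z ∉ Z → x ≠ y → x ≠ z → y ≠ z → ∀ u v w : S,
      ∃ r : R, (∀ i ∈ Z, A i r = A i r0) ∧ A x r = u ∧ A y r = v ∧ A z r = w := by
    intro x y z hx hy hz hxy hxz hyz u v w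
    obtain ⟨r, hr⟩ := hA2 (insert x (insert y (insert z Z)))
      (hcd x y z hx hy hz hxy hxz hyz).le
      (fun i => if i = x then u else if i = y then v else if i = z then w else A i r0)
    refine ⟨r, fun i hi => ?_, ?_, ?_, ?_⟩
    · have h := hr i (by simp [hi])
      have e1 : i ≠ x := fun e => hx (e ▸ hi)
      have e2 : i ≠ y := fun e => hy (e ▸ hi)
      have e3 : i ≠ z := fun e => hz (e ▸ hi)
      rw [h, if_neg e1, if_neg e2, if_neg e3]
    · have h := hr x (by simp)
      rw [h, if_pos rfl]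
    · have h := hr y (by simp)
      rw [h, if_neg hxy.symm, if_pos rfl]
    · have h := hr z (by simp)
      rw [h, if_neg hxz.symm, if_neg hyz.symm, if_pos rfl]
  have hs : ∀ j ∈ J, ∃ r : R, (∀ i ∈ Z, A i r = A i r0) ∧ A p r = a ∧ A q r = b ∧
      A j r = A j r0 := fun j hj =>
    mk3 p q j hpZ hqZ (hJZ j hj) hpq (hJp j hj).symm (hJq j hj).symm a b (A j r0)
  choose! s hs using hs
  have key : ∀ j ∈ J, ∃ j' ∈ J, j' ≠ j ∧ A j' (s j) = A j' r0 := by
    intro j hj
    by_contra hcon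
    push Not at hcon
    obtain ⟨hs0, hs1, hs2, hs3⟩ := hs j hj
    have hqI : q ∉ J.erase j := fun h => hJq q (mem_of_mem_erase h) rfl
    have hI : (insert q (J.erase j)).card = Fintype.card S := by
      rw [card_insert_of_notMem hqI, card_erase_of_mem hj, hJ]
      omega
    have hIZ : ∀ i ∈ insert q (J.erase j), i ∉ Z := by
      intro i hi
      rcases mem_insert.1 hi with rfl | hi
      · exact hqZ
      · exact hJZ i (mem_of_mem_erase hi)
    have hIp : ∀ i ∈ insert q (J.erase j), i ≠ p := by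
      intro i hi
      rcases mem_insert.1 hi with rfl | hi
      · exact hpq.symm
      · exact hJp i (mem_of_mem_erase hi)
    have hIj : ∀ i ∈ insert q (J.erase j), i ≠ j := by
      intro i hi
      rcases mem_insert.1 hi with rfl | hi
      · exact (hJq j hj).symm
      · exact (mem_erase.1 hi).1
    have hne : ∀ i ∈ insert q (J.erase j), A i (s j) ≠ A i r0 := by
      intro i hi
      rcases mem_insert.1 hi with rfl | hi
      · rw [hs2]
        exact hb
      · exact hcon i (mem_of_mem_erase hi) (mem_erase.1 hi).1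
    have ht : ∀ i ∈ insert q (J.erase j), ∃ t : R, (∀ z ∈ Z, A z t = A z r0) ∧ A j t = A j r0 ∧
        A p t = a ∧ A i t = A i r0 := fun i hi =>
      mk3 j p i (hJZ j hj) hpZ (hIZ i hi) (hJp j hj) (hIj i hi).symm (hIp i hi).symm
        (A j r0) a (A i r0)
    choose! t ht using ht
    have hmap : ∀ i ∈ insert q (J.erase j), A q (t i) ∈ (univ : Finset S).erase b := by
      intro i hi
      refine mem_erase.2 ⟨fun h => ?_, mem_univ _⟩
      obtain ⟨ht0, ht1, ht2, ht3⟩ := ht i hi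
      have he : t i = s j := ext3 j p q (hJZ j hj) hpZ hqZ (hJp j hj) (hJq j hj) hpq _ _
        (fun z hz => (ht0 z hz).trans (hs0 z hz).symm) (ht1.trans hs3.symm) (ht2.trans hs1.symm)
        (h.trans hs2.symm)
      rw [he] at ht3
      exact hne i hi ht3
    have hlt : ((univ : Finset S).erase b).card < (insert q (J.erase j)).card := by
      rw [hI, card_erase_of_mem (mem_univ _), card_univ]
      omega
    obtain ⟨i, hi, i', hi', hii, heq⟩ := Finset.exists_ne_map_eq_of_card_lt_of_maps_to hlt hmap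
    obtain ⟨ht0, ht1, ht2, ht3⟩ := ht i hi
    obtain ⟨hu0, hu1, hu2, hu3⟩ := ht i' hi'
    have he : t i = t i' := ext3 j p q (hJZ j hj) hpZ hqZ (hJp j hj) (hJq j hj) hpq _ _
      (fun z hz => (ht0 z hz).trans (hu0 z hz).symm) (ht1.trans hu1.symm) (ht2.trans hu2.symm) heq
    rw [← he] at hu3
    have hr : t i = r0 := ext3 j i i' (hJZ j hj) (hIZ i hi) (hIZ i' hi') (hIj i hi).symm
      (hIj i' hi').symm hii _ _ ht0 ht1 ht3 hu3
    rw [hr] at ht2
    exact ha ht2.symm
  have uniq : ∀ j ∈ J, ∀ j' ∈ J, ∀ j'' ∈ J, j' ≠ j → j'' ≠ j → A j' (s j) = A j' r0 →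
      A j'' (s j) = A j'' r0 → j' = j'' := by
    intro j hj j' hj' j'' hj'' h1 h2 h3 h4
    by_contra hne
    obtain ⟨hs0, hs1, hs2, hs3⟩ := hs j hj
    have hr : s j = r0 := ext3 j j' j'' (hJZ j hj) (hJZ j' hj') (hJZ j'' hj'') h1.symm h2.symm hne
      _ _ hs0 hs3 h3 h4
    rw [hr] at hs1
    exact ha hs1.symm
  choose! f hf using key
  have hinv : ∀ j ∈ J, f (f j) = j := by
    intro j hj
    obtain ⟨h1, h2, h3⟩ := hf j hj
    obtain ⟨g1, g2, g3⟩ := hf (f j) h1
    obtain ⟨hs0, hs1, hs2, hs3⟩ := hs j hj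
    obtain ⟨hu0, hu1, hu2, hu3⟩ := hs (f j) h1
    have he : s (f j) = s j := ext3 p q (f j) hpZ hqZ (hJZ _ h1) hpq (hJp _ h1).symm
      (hJq _ h1).symm _ _ (fun z hz => (hu0 z hz).trans (hs0 z hz).symm) (hu1.trans hs1.symm)
      (hu2.trans hs2.symm) (hu3.trans h3.symm)
    refine uniq (f j) h1 (f (f j)) g1 j hj g2 h2.symm g3 ?_
    rw [he]
    exact hs3
  have hsum : ∑ j ∈ J, (1 : ZMod 2) = 0 :=
    Finset.sum_involution (fun j _ => f j) (fun j _ => by decide)
      (fun j hj _ => (hf j hj).2.1) (fun j hj => (hf j hj).1) (fun j hj => hinv j hj)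
  rw [sum_const, nsmul_eq_mul, mul_one, hJ] at hsum
  have := (ZMod.natCast_eq_zero_iff_even).1 hsum
  exact (Nat.not_even_iff_odd.2 hodd) this

end J6H2.VC
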