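import Pool.Agent.J6H2.VC.Stm

/-! # VC-Z: nowhere zero vectors of sum zero span the vectors of sum zero -/

namespace J6H2.VC

namespace Zmod

theorem exists_notMem {F : Type} [Fintype F] (hq : 3 ≤ Fintype.card F) (a b : F) :
    ∃ x : F, x ≠ a ∧ x ≠ b := by
  classical
  by_contra h
  push_neg at h
  have h1 : (Finset.univ : Finset F) ⊆ {a, b} := by
    intro x _
    by_cases hx : x = a
    · simp [hx]
    · simp [h x hx]
  have h2 := Finset.card_le_card h1
  have h3 : ({a, b} : Finset F).card ≤ 2 := Finset.card_le_two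
  rw [Finset.card_univ] at h2
  omega

/-- the vector with the values `α, β, x, y` at `i, j, p, r` and `1` elsewhere -/
def vec {F : Type} [Field F] {N : ℕ} (i j p r : Fin N) (α β x y : F) : Fin N → F := fun k =>
  1 + Pi.single (M := fun _ => F) i (α - 1) k + Pi.single (M := fun _ => F) j (β - 1) k +
    Pi.single (M := fun _ => F) p (x - 1) k + Pi.single (M := fun _ => F) r (y - 1) k

theorem vec_sum {F : Type} [Field F] {N : ℕ} (i j p r : Fin N) (α β x y : F) :
    ∑ k, vec i j p r α β x y k = N + (α - 1) + (β - 1) + (x - 1) + (y - 1) := by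
  unfold vec
  rw [Finset.sum_add_distrib, Finset.sum_add_distrib, Finset.sum_add_distrib,
    Finset.sum_add_distrib]
  simp

theorem vec_ne {F : Type} [Field F] {N : ℕ} {i j p r : Fin N} (hij : i ≠ j) (hip : i ≠ p)
    (hir : i ≠ r) (hjp : j ≠ p) (hjr : j ≠ r) (hpr : p ≠ r) {α β x y : F} (hα : α ≠ 0)
    (hβ : β ≠ 0) (hx : x ≠ 0) (hy : y ≠ 0) (k : Fin N) : vec i j p r α β x y k ≠ 0 := by
  unfold vec
  by_cases h1 : k = i
  · subst h1
    rw [Pi.single_eq_same, Pi.single_eq_of_ne hij, Pi.single_eq_of_ne hip, Pi.single_eq_of_ne hir]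
    simpa using hα
  rw [Pi.single_eq_of_ne h1]
  by_cases h2 : k = j
  · subst h2
    rw [Pi.single_eq_same, Pi.single_eq_of_ne hjp, Pi.single_eq_of_ne hjr]
    simpa using hβ
  rw [Pi.single_eq_of_ne h2]
  by_cases h3 : k = p
  · subst h3
    rw [Pi.single_eq_same, Pi.single_eq_of_ne hpr]
    simpa using hx
  rw [Pi.single_eq_of_ne h3]
  by_cases h4 : k = r
  · subst h4
    rw [Pi.single_eq_same]
    simpa using hy
  rw [Pi.single_eq_of_ne h4]
  simp

end Zmod

open Zmod

theorem t_Z : S_Z := by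
  classical
  intro F _ _ hq N hN y hy
  set V := Submodule.span F {z : Fin N → F | ∑ i, z i = 0 ∧ ∀ i, z i ≠ 0} with hV
  have key : ∀ i j : Fin N, i ≠ j → (Pi.single i 1 - Pi.single j 1 : Fin N → F) ∈ V := by
    intro i j hij
    obtain ⟨b, hb0, hb1⟩ := exists_notMem hq (0 : F) 1
    have hc : 1 < ((Finset.univ : Finset (Fin N)) \ {i, j}).card := by
      have h1 := Finset.le_card_sdiff {i, j} (Finset.univ : Finset (Fin N))
      have h2 : ({i, j} : Finset (Fin N)).card ≤ 2 := Finset.card_le_two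
      rw [Finset.card_univ, Fintype.card_fin] at h1
      omega
    obtain ⟨p, hp, r, hr, hpr⟩ := Finset.one_lt_card.1 hc
    simp only [Finset.mem_sdiff, Finset.mem_univ, true_and, Finset.mem_insert,
      Finset.mem_singleton, not_or] at hp hr
    obtain ⟨u, hu⟩ : ∃ u : F, u = -(1 + b) + 4 - N := ⟨_, rfl⟩
    obtain ⟨x, hx0, hxu⟩ := exists_notMem hq (0 : F) u
    have hux : u - x ≠ 0 := sub_ne_zero.2 (Ne.symm hxu)
    have h1 : vec i j p r 1 b x (u - x) ∈ V := by
      refine Submodule.subset_span ⟨?_, fun k => vec_ne hij (Ne.symm hp.1) (Ne.symm hr.1)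
        (Ne.symm hp.2) (Ne.symm hr.2) hpr one_ne_zero hb0 hx0 hux k⟩
      rw [vec_sum, hu]
      ring
    have h2 : vec i j p r b 1 x (u - x) ∈ V := by
      refine Submodule.subset_span ⟨?_, fun k => vec_ne hij (Ne.symm hp.1) (Ne.symm hr.1)
        (Ne.symm hp.2) (Ne.symm hr.2) hpr hb0 one_ne_zero hx0 hux k⟩
      rw [vec_sum, hu]
      ring
    have hb1' : b - 1 ≠ 0 := sub_ne_zero.2 hb1
    have h3 : (Pi.single i 1 - Pi.single j 1 : Fin N → F) =
        (b - 1)⁻¹ • (vec i j p r b 1 x (u - x) - vec i j p r 1 b x (u - x)) := by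
      funext k
      simp only [Pi.sub_apply, Pi.smul_apply, smul_eq_mul, vec]
      have e1 : ∀ (s : Fin N) (c : F), (Pi.single s c : Fin N → F) k =
          c * (Pi.single s 1 : Fin N → F) k := by
        intro s c
        by_cases h : k = s
        · subst h; simp
        · rw [Pi.single_eq_of_ne h, Pi.single_eq_of_ne h, mul_zero]
      rw [e1 i (b - 1), e1 j (1 - 1), e1 i (1 - 1), e1 j (b - 1)]
      field_simp
      ring
    rw [h3]
    exact V.smul_mem _ (V.sub_mem h2 h1)
  obtain ⟨i0⟩ : Nonempty (Fin N) := ⟨⟨0, by omega⟩⟩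
  have h4 : y = ∑ i, y i • (Pi.single i 1 - Pi.single i0 1 : Fin N → F) := by
    funext k
    simp only [smul_sub, Finset.sum_sub_distrib, ← Finset.sum_smul, hy, zero_smul, sub_zero]
    rw [Finset.sum_apply, Finset.sum_eq_single k]
    · simp
    · intro i _ hik
      rw [Pi.smul_apply, Pi.single_eq_of_ne (Ne.symm hik), smul_zero]
    · intro h
      exact absurd (Finset.mem_univ k) h
  rw [h4]
  refine V.sum_mem fun i _ => V.smul_mem _ ?_
  by_cases h : i = i0
  · subst h
    rw [sub_self]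
    exact V.zero_mem
  · exact key i i0 h

end J6H2.VC
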